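import Mathlib
import Pool.Agent.Lib.MP_9e1b23_co.Conn3

set_option autoImplicit false

namespace Pool.Agent.Results.MP_9e1b23_co.ConnectedTarget

/-- There is a finite connected simple graph `H` for which some tree on seven vertices has fewer
homomorphisms to `H` than the path on seven vertices, while for all large `n` the path on `n`
vertices has the fewest homomorphisms to `H` among all trees on `n` vertices. -/
theorem result : ∃ (V : Type) (_ : Finite V) (H : SimpleGraph V), H.Connected ∧
    (∃ T : SimpleGraph (Fin 7), T.IsTree ∧
      Nat.card (T →g H) < Nat.card (SimpleGraph.pathGraph 7 →g H)) ∧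
    ∃ β : ℕ, 7 < β ∧ ∀ n : ℕ, β ≤ n → ∀ T : SimpleGraph (Fin n), T.IsTree →
      Nat.card (SimpleGraph.pathGraph n →g H) ≤ Nat.card (T →g H) :=
  Pool.Agent.Lib.MP_9e1b23_co.final_conn

end Pool.Agent.Results.MP_9e1b23_co.ConnectedTarget
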